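import Pool.Agent.helper60.XP.SpecE

/-!
# FQP: the bound of `q` in case (F)
-/

set_option autoImplicit false

open Complex Metric Set Filter Topology MeasureTheory
open V3 (En ZL)

noncomputable section

namespace XPE

theorem FQP_cont (f : ℂ → ℂ) (hf : Differentiable ℂ f) (r : ℝ) :
    Continuous (fun φ : ℝ => f (r * exp (φ * I))) := by
  have := hf.continuous
  fun_prop

/-- lower bound on one circle -/
theorem FQP_circle {q B : ℂ → ℂ} {θ c₀ : ℂ} {d : ℕ} {K R₀ r : ℝ}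
    (hq : Differentiable ℂ q) (hθ : ‖θ‖ = 1) (hc : ‖c₀‖ = 1) (hR₀ : 0 < R₀)
    (hB : ∀ x : ℂ, R₀ ≤ ‖x‖ →
      ‖((‖B x‖ : ℝ) : ℂ) / B x - c₀ * ((starRingEnd ℂ) x / (‖x‖ : ℝ)) ^ d‖ ≤ K / ‖x‖)
    (hm : Measurable (En θ B q)) (h0 : ∀ x, 0 ≤ En θ B q x ∧ En θ B q x ≤ 2 * ‖q x‖)
    (hr : R₀ ≤ r) (hrK : 2 * K ≤ r) (n : ℕ) :
    (1 / 2) * ‖∫ φ in (0 : ℝ)..(2 * Real.pi), q (r * exp (φ * I)) * exp (-(n * φ * I))‖ -
      ‖∫ φ in (0 : ℝ)..(2 * Real.pi), q (r * exp (φ * I)) * exp (-(d * φ * I))‖ ≤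
      ∫ φ in (0 : ℝ)..(2 * Real.pi), En θ B q (r * exp (φ * I)) := by
  have hr0 : 0 < r := lt_of_lt_of_le hR₀ hr
  have hpi : (0 : ℝ) ≤ 2 * Real.pi := by positivity
  have hcq : Continuous (fun φ : ℝ => q (r * exp (φ * I))) := FQP_cont q hq r
  have hcn : Continuous (fun φ : ℝ => ‖q (r * exp (φ * I))‖) := hcq.norm
  have hcm : Continuous (fun φ : ℝ => q (r * exp (φ * I)) * exp (-(d * φ * I))) :=
    hcq.mul (by fun_prop)
  have hcr : Continuous (fun φ : ℝ => (θ * c₀ * (q (r * exp (φ * I)) * exp (-(d * φ * I)))).re) :=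
    Complex.continuous_re.comp (continuous_const.mul hcm)
  -- the pointwise bound
  have hnorm : ∀ φ : ℝ, ‖(r : ℂ) * exp (φ * I)‖ = r := by
    intro φ
    rw [norm_mul, Complex.norm_exp_ofReal_mul_I, mul_one, Complex.norm_real, Real.norm_eq_abs,
      abs_of_pos hr0]
  have hpt : ∀ φ : ℝ, (1 / 2) * ‖q (r * exp (φ * I))‖ -
      (θ * c₀ * (q (r * exp (φ * I)) * exp (-(d * φ * I)))).re ≤ En θ B q (r * exp (φ * I)) := by
    intro φ
    set x : ℂ := (r : ℂ) * exp (φ * I) with hx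
    have hxn : ‖x‖ = r := hnorm φ
    have h1 := hB x (by rw [hxn]; exact hr)
    rw [hxn] at h1
    have h2 : (starRingEnd ℂ) x / (r : ℝ) = exp (-(φ * I)) := by
      rw [hx, map_mul, Complex.conj_ofReal, ← Complex.exp_conj, map_mul, Complex.conj_ofReal,
        Complex.conj_I]
      have : (r : ℂ) ≠ 0 := by exact_mod_cast hr0.ne'
      rw [mul_neg]
      field_simp
    rw [h2, ← Complex.exp_nat_mul] at h1
    have h3 : ((d : ℂ) * (-(φ * I))) = -(d * φ * I) := by ring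
    rw [h3] at h1
    have hKr : K / r ≤ 1 / 2 := by
      rw [div_le_iff₀ hr0]; linarith
    have h4 : ‖((‖B x‖ : ℝ) : ℂ) / B x - c₀ * exp (-(d * φ * I))‖ ≤ 1 / 2 := h1.trans hKr
    unfold En
    have h5 : (θ * q x * (((‖B x‖ : ℝ) : ℂ) / B x)) = θ * c₀ * (q x * exp (-(d * φ * I))) +
        θ * q x * (((‖B x‖ : ℝ) : ℂ) / B x - c₀ * exp (-(d * φ * I))) := by ring
    rw [h5, Complex.add_re]
    have h6 : (θ * q x * (((‖B x‖ : ℝ) : ℂ) / B x - c₀ * exp (-(d * φ * I)))).re ≤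
        ‖q x‖ * (1 / 2) := by
      refine (Complex.re_le_norm _).trans ?_
      rw [norm_mul, norm_mul, hθ, one_mul]
      exact mul_le_mul_of_nonneg_left h4 (norm_nonneg _)
    linarith
  have hEi : IntervalIntegrable (fun φ : ℝ => En θ B q (r * exp (φ * I))) volume 0
      (2 * Real.pi) := by
    have hb : IntervalIntegrable (fun φ : ℝ => 2 * ‖q (r * exp (φ * I))‖) volume 0
        (2 * Real.pi) := (continuous_const.mul hcn).intervalIntegrable _ _
    refine hb.mono_fun ?_ ?_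
    · refine Measurable.aestronglyMeasurable ?_
      exact hm.comp (by fun_prop)
    · refine Filter.Eventually.of_forall fun φ => ?_
      show ‖En θ B q (r * exp (φ * I))‖ ≤ ‖2 * ‖q (r * exp (φ * I))‖‖
      rw [Real.norm_eq_abs, Real.norm_eq_abs, abs_of_nonneg (h0 _).1, abs_of_nonneg (by positivity)]
      exact (h0 _).2
  have hint : ∫ φ in (0 : ℝ)..(2 * Real.pi), ((1 / 2) * ‖q (r * exp (φ * I))‖ -
      (θ * c₀ * (q (r * exp (φ * I)) * exp (-(d * φ * I)))).re) ≤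
      ∫ φ in (0 : ℝ)..(2 * Real.pi), En θ B q (r * exp (φ * I)) := by
    refine intervalIntegral.integral_mono_on hpi ?_ hEi ?_
    · exact ((continuous_const.mul hcn).sub hcr).intervalIntegrable _ _
    · intro φ _
      exact hpt φ
  have hi1 : IntervalIntegrable (fun φ : ℝ => (1 / 2 : ℝ) * ‖q (r * exp (φ * I))‖) volume 0
      (2 * Real.pi) := (continuous_const.mul hcn).intervalIntegrable _ _
  have hi2 : IntervalIntegrable
      (fun φ : ℝ => (θ * c₀ * (q (r * exp (φ * I)) * exp (-(d * φ * I)))).re)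
      volume 0 (2 * Real.pi) := hcr.intervalIntegrable _ _
  rw [intervalIntegral.integral_sub hi1 hi2, intervalIntegral.integral_const_mul] at hint
  have hz : ∫ φ in (0 : ℝ)..(2 * Real.pi),
      (θ * c₀ * (q (r * exp (φ * I)) * exp (-(d * φ * I)))).re ≤
      ‖∫ φ in (0 : ℝ)..(2 * Real.pi), q (r * exp (φ * I)) * exp (-(d * φ * I))‖ := by
    have h8 := Complex.reCLM.intervalIntegral_comp_comm
      (f := fun φ : ℝ => (θ * c₀ * (q (r * exp (φ * I)) * exp (-(d * φ * I))))) (μ := volume)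
      (a := 0) (b := 2 * Real.pi) ((continuous_const.mul hcm).intervalIntegrable _ _)
    have h9 : ∫ φ in (0 : ℝ)..(2 * Real.pi),
        (θ * c₀ * (q (r * exp (φ * I)) * exp (-(d * φ * I)))).re =
        (∫ φ in (0 : ℝ)..(2 * Real.pi),
          (θ * c₀ * (q (r * exp (φ * I)) * exp (-(d * φ * I))))).re := h8
    rw [h9, intervalIntegral.integral_const_mul]
    refine (Complex.re_le_norm _).trans (le_of_eq ?_)
    rw [norm_mul, norm_mul, hθ, hc, one_mul, one_mul]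
  have hn : ‖∫ φ in (0 : ℝ)..(2 * Real.pi), q (r * exp (φ * I)) * exp (-(n * φ * I))‖ ≤
      ∫ φ in (0 : ℝ)..(2 * Real.pi), ‖q (r * exp (φ * I))‖ := by
    refine (intervalIntegral.norm_integral_le_integral_norm hpi).trans (le_of_eq ?_)
    refine intervalIntegral.integral_congr fun φ _ => ?_
    have h10 : (-((n : ℂ) * φ * I)) = ((-(n * φ) : ℝ) : ℂ) * I := by
      push_cast
      ring
    simp only [norm_mul]
    rw [h10, Complex.norm_exp_ofReal_mul_I, mul_one]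
  linarith

theorem FQP (hFP : FPP_stmt) (hFC : FCP_stmt) (hFL : V3.FPL_stmt) (hE : ENB_stmt) : FQP_stmt := by
  intro P A g B v q θ Pf N d hL hP hN0 hNd hNB
  have hfin : P.Finite := by
    rw [hP]
    exact Pf.finite_toSet
  obtain ⟨c₀, K, R₀, κ₀, hc, hR₀, -, hB⟩ := hFP Pf N B d hN0 hNd hNB
  obtain ⟨a, ha1, ha2⟩ := hFC q hL.qd
  obtain ⟨h0, hm, hIn⟩ := hE P A g B v q θ hL
  obtain ⟨C, hCb⟩ := hL.eF hfin
  have hzero : ∀ n, d < n → a n = 0 := by
    intro n hn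
    by_contra hne
    have han : 0 < ‖a n‖ := norm_pos_iff.2 hne
    have hpi : 0 < Real.pi := Real.pi_pos
    set R₁ : ℝ := max (max R₀ (2 * K)) (max 1 ((2 * Real.pi * ‖a d‖ + 1) / (Real.pi * ‖a n‖)))
      with hR₁
    have hR₁0 : 0 < R₁ := lt_of_lt_of_le one_pos ((le_max_left _ _).trans (le_max_right _ _))
    have hcirc : ∀ r : ℝ, R₁ ≤ r →
        1 ≤ ∫ φ in (0 : ℝ)..(2 * Real.pi), En θ B q (r * exp (φ * I)) := by
      intro r hr
      have hr1 : 1 ≤ r := ((le_max_left _ _).trans (le_max_right _ _)).trans hr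
      have hr2 : R₀ ≤ r := (le_max_left _ _).trans ((le_max_left _ _).trans hr)
      have hr3 : 2 * K ≤ r := (le_max_right _ _).trans ((le_max_left _ _).trans hr)
      have hr4 : (2 * Real.pi * ‖a d‖ + 1) / (Real.pi * ‖a n‖) ≤ r :=
        ((le_max_right _ _).trans (le_max_right _ _)).trans hr
      rw [div_le_iff₀ (by positivity)] at hr4
      have hr0 : 0 < r := by linarith
      have h1 := FQP_circle (r := r) hL.qd hL.th hc hR₀ (fun x hx => (hB x hx).1) hm h0 hr2 hr3 n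
      rw [ha1 n r hr0, ha1 d r hr0] at h1
      refine le_trans ?_ h1
      have e1 : ∀ m : ℕ, ‖(2 * Real.pi * a m * (r : ℂ) ^ m)‖ = 2 * Real.pi * ‖a m‖ * r ^ m := by
        intro m
        rw [norm_mul, norm_mul, norm_mul, norm_pow, Complex.norm_real, Complex.norm_real,
          Real.norm_of_nonneg hpi.le, Real.norm_of_nonneg hr0.le, Complex.norm_ofNat]
      rw [e1, e1]
      have h2 : r ^ (d + 1) ≤ r ^ n := pow_le_pow_right₀ hr1 hn
      have h3 : 1 ≤ r ^ d := one_le_pow₀ hr1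
      have h4 : Real.pi * ‖a n‖ * r ^ (d + 1) ≤ Real.pi * ‖a n‖ * r ^ n :=
        mul_le_mul_of_nonneg_left h2 (by positivity)
      have h5 : r ^ (d + 1) = r * r ^ d := by ring
      have h6 : (2 * Real.pi * ‖a d‖ + 1) * r ^ d ≤ r * (Real.pi * ‖a n‖) * r ^ d :=
        mul_le_mul_of_nonneg_right hr4 (by positivity)
      rw [h5] at h4
      nlinarith
    have hall : ∀ R : ℝ, R₁ < R → 1 * ((R ^ 2 - R₁ ^ 2) / 2) ≤ C := by
      intro R hR
      have := hFL (En θ B q) 1 R₁ R hm (fun x => (h0 x).1) (hIn R) hR₁0 hR zero_le_one hcirc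
      exact this.trans (hCb R (hR₁0.trans hR))
    obtain ⟨m, hm1⟩ := exists_nat_gt (2 * |C| + R₁ ^ 2 + R₁ + 1)
    have hm2 : R₁ < (m : ℝ) := by nlinarith [sq_nonneg R₁, abs_nonneg C]
    have hm3 : (1 : ℝ) ≤ m := by nlinarith [sq_nonneg R₁, abs_nonneg C]
    have h1 := hall m hm2
    have h2 : (m : ℝ) ≤ (m : ℝ) ^ 2 := by nlinarith
    have h5 := le_abs_self C
    nlinarith
  have hqe := ha2 d hzero
  refine ⟨∑ n ∈ Finset.range (d + 1), ‖a n‖, Finset.sum_nonneg fun n _ => norm_nonneg _,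
    fun x => ?_⟩
  rw [hqe x, Finset.sum_mul]
  refine (norm_sum_le _ _).trans (Finset.sum_le_sum fun n hn => ?_)
  rw [norm_mul, norm_pow]
  refine mul_le_mul_of_nonneg_left ?_ (norm_nonneg _)
  have hnd : n ≤ d := by
    have := Finset.mem_range.1 hn
    omega
  have h1 : (1 : ℝ) ≤ 1 + ‖x‖ := by linarith [norm_nonneg x]
  calc ‖x‖ ^ n ≤ (1 + ‖x‖) ^ n := pow_le_pow_left₀ (norm_nonneg _) (by linarith [norm_nonneg x]) n
    _ ≤ (1 + ‖x‖) ^ d := pow_le_pow_right₀ h1 hnd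

end XPE
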