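import Pool.Agent.helper74.XP.SpecP

/-!
# SMA: images of discs about repelling periodic points
-/

set_option autoImplicit false

open Complex Metric Set Filter Topology MeasureTheory MPS PPS Pool.Agent.helper16.Multibrot

noncomputable section

namespace XPP

theorem SMA_cau (f : Polynomial ℂ) (s : ℝ) (hs : 0 < s) (m : ℕ) (p q w : ℂ) (t : ℝ)
    (hw : ‖w - p‖ < s / 2) (h : ∀ z, ‖z - p‖ < s → ‖it f m z - q‖ ≤ t) :
    ‖deriv (it f m) w‖ ≤ t / (s / 4) := by
  have hd : Differentiable ℂ (it f m) := f.differentiable.iterate m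
  have h1 : deriv (fun z => it f m z - q) w = deriv (it f m) w := by
    rw [deriv_sub_const]
  rw [← h1]
  refine Complex.norm_deriv_le_of_forall_mem_sphere_norm_le (by positivity)
    ((hd.sub_const q).diffContOnCl) fun z hz => ?_
  apply h
  rw [mem_sphere, dist_eq_norm] at hz
  calc ‖z - p‖ = ‖(z - w) + (w - p)‖ := by rw [sub_add_sub_cancel]
    _ ≤ ‖z - w‖ + ‖w - p‖ := norm_add_le _ _
    _ < s := by linarith

theorem SMA (hNET : NET_stmt) (hDLB : DLB_stmt) : SMA_stmt := by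
  intro f s hf hs
  obtain ⟨W, hW, hnet⟩ := hNET f (s / 2) hf (by positivity)
  constructor
  · have h1 : ∀ᶠ κ in 𝓝[>] (0 : ℝ), ∀ w ∈ W, ∀ m : ℕ, κ ≤ ‖deriv (it f m) w‖ := by
      rw [Filter.eventually_all_finset]
      intro w hw
      obtain ⟨k, hk⟩ := hW w hw
      obtain ⟨κ, hκ, h2⟩ := (hDLB f k w hk).1
      filter_upwards [Ioc_mem_nhdsGT hκ] with κ' hκ' m
      exact hκ'.2.trans (h2 m)
    obtain ⟨κ, hκ, hκ0⟩ := (h1.and self_mem_nhdsWithin).exists
    have hκ0' : 0 < κ := hκ0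
    refine ⟨κ * (s / 4), by positivity, fun m k p q t hp h => ?_⟩
    obtain ⟨w, hw, hwp⟩ := hnet k p hp
    have h2 := (hκ w hw m).trans (SMA_cau f s hs m p q w t hwp h)
    rwa [le_div_iff₀ (by positivity)] at h2
  · intro M
    have h1 : ∀ᶠ m : ℕ in atTop, ∀ w ∈ W, M / (s / 4) < ‖deriv (it f m) w‖ := by
      rw [Filter.eventually_all_finset]
      intro w hw
      obtain ⟨k, hk⟩ := hW w hw
      exact (hDLB f k w hk).2.eventually_gt_atTop _
    obtain ⟨K₀, hK⟩ := eventually_atTop.1 h1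
    refine ⟨K₀, fun m k p q t hm hp h => ?_⟩
    obtain ⟨w, hw, hwp⟩ := hnet k p hp
    have h2 := (hK m hm w hw).trans_le (SMA_cau f s hs m p q w t hwp h)
    exact ((div_lt_div_iff_of_pos_right (by positivity)).1 h2).le

end XPP
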